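import Mathlib
import Pool.Agent.Lib.Pe17fed.Conclude

/-! # The Hecke lifting congruence for framed links (MP_e17fed_gt, Q1)

Every framed oriented link in `S³` is the closure, with the blackboard framing, of a braid
(Alexander's theorem; a positive or negative stabilisation changes the framing of one component
by `±1`).  Here such a link is given by a word `w` in the Artin generators `σ_i^{±1}`, `i + 1 < n`.

* `Br` is Artin's braid group on infinitely many strands, `BB n` the subgroup of braids on the first
  `n` strands, `wd w` the braid of the word `w`.
* `IsFramedHomfly H`: the numbers `H n b` are the framed HOMFLY-PT invariants of the closures of the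
  braids `b` on `n` strands: value `1` on the empty link, invariance under conjugation, the skein
  relation `X₊ - X₋ = z X₀`, factor `(a - a⁻¹) / z` for a split `0`-framed unknot, factor `a^{±1}` for
  a positive or negative curl.  Such an `H` exists and is unique; both are part of the theorem.
* `cab d b` is the blackboard `d`-parallel of `b`; `Psum d` is the power sum `P_d`, as an element of
  the group algebra of the braid group on `d` strands, obtained by Newton's identities from the
  idempotents `hsym n` of the one-row partitions (whose closures are the complete symmetric
  functions `h_n = Q_{(n)}`).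
* `Tr n (perm (wd w)) R`: `R` contains exactly one strand position of each component of the closure;
  so `R.card` is the number `L` of components.
* `Zc H d n R b = {d}^L H(L ⋆ P_d^{⊗ L})`: every component of the closure of `b` is replaced by `d`
  parallels and decorated by `P_d` at its strand position in `R`.
* `fram w` is the total framing: the sum of the signs of the self-crossings of the components.
* `Psi p` is the Adams operator `f(q, a) ↦ f(q^p, a^p)` on `K = ℚ(q, a)`. -/

namespace Pool.Agent.Results.MP_e17fed_gt.HeckeLifting

open Pool.Agent.Lib.Pe17fed

/-- **The Hecke lifting congruence** for all framed oriented links and all primes. -/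
theorem result :
    -- the framed HOMFLY-PT invariant exists and is unique
    (∃ H : ℕ → Br → K, IsFramedHomfly H) ∧
    (∀ H H' : ℕ → Br → K, IsFramedHomfly H → IsFramedHomfly H' →
      ∀ n, ∀ b ∈ BB n, H n b = H' n b) ∧
    -- the congruence, for the closure of every braid word and every prime
    ∀ H : ℕ → Br → K, IsFramedHomfly H → ∀ (p : ℕ) (hp : p.Prime) (n : ℕ) (w : List (ℕ × Bool)),
      (∀ l ∈ w, l.1 + 1 < n) → ∀ R : Finset ℕ, Tr n (perm (wd w)) R →
      Zc H 1 n R (wd w) = zv ^ R.card * H n (wd w) ∧
      ∃ g ∈ Algebra.adjoin ℤ ({zv ^ 2, av, av⁻¹} : Set K),
        Zc H p n R (wd w) - (-1) ^ (((p : ℤ) - 1) * fram w) * Psi p hp.pos (Zc H 1 n R (wd w)) =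
          ((qv ^ p - qv⁻¹ ^ p) / (qv - qv⁻¹)) ^ 2 * g :=
  ⟨exists_framedHomfly, fun _ _ h h' => framedHomfly_unique h h',
    fun H hH _ hp n w hw R hR => ⟨Zc_one H n R (wd w), main_congruence hH hp hw hR⟩⟩

end Pool.Agent.Results.MP_e17fed_gt.HeckeLifting
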